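import Pool.Agent.helper59.MO.Base

open Complex Finset

namespace Pool.Agent.MO

theorem S2_alg (B : ℂ) (C W : ℝ) (hC : 0 < C) (hW : 0 < W) :
    (B - (-I) * (-I) / (C : ℂ)) - (-I - (-I) * (-I) / (C : ℂ)) * (-I - (-I) * (-I) / (C : ℂ)) /
      ((W : ℂ) - (-I) * (-I) / (C : ℂ)) = B + ((C : ℂ) + W + 2 * I) / ((C : ℂ) * W + 1) := by
  have hCC : (C : ℂ) ≠ 0 := by exact_mod_cast hC.ne'
  have h1 : (C : ℂ) * W + 1 ≠ 0 := by
    have : (C : ℂ) * W + 1 = ((C * W + 1 : ℝ) : ℂ) := by push_cast; ring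
    rw [this]
    exact_mod_cast (by positivity : (0:ℝ) < C * W + 1).ne'
  have hI : (-I) * (-I) = (-1 : ℂ) := by
    have := Complex.I_mul_I
    linear_combination this
  rw [hI]
  have h2 : (W : ℂ) - -1 / (C : ℂ) = ((C : ℂ) * W + 1) / C := by
    field_simp
    ring
  rw [h2]
  have hI2 : I ^ 2 = (-1 : ℂ) := Complex.I_sq
  field_simp
  linear_combination (-(C : ℂ) ^ 2) * hI2

theorem S2_re (C W : ℝ) (hC : 0 < C) (hW : 0 < W) :
    0 ≤ (((C : ℂ) + W + 2 * I) / ((C : ℂ) * W + 1)).re ∧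
    0 ≤ (((C : ℂ) + W + 2 * I) / ((C : ℂ) * W + 1)).im := by
  have : ((C : ℂ) + W + 2 * I) / ((C : ℂ) * W + 1)
      = ((C + W) / (C * W + 1) : ℝ) + ((2 / (C * W + 1) : ℝ) : ℂ) * I := by
    push_cast
    ring
  rw [this]
  have h1 : (0 : ℝ) ≤ (C + W) / (C * W + 1) := by positivity
  have h2 : (0 : ℝ) ≤ 2 / (C * W + 1) := by positivity
  constructor
  · simp only [Complex.add_re, Complex.ofReal_re, Complex.mul_re, Complex.I_re, Complex.ofReal_im,
      Complex.I_im]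
    linarith
  · simp only [Complex.add_im, Complex.ofReal_re, Complex.mul_im, Complex.I_re, Complex.ofReal_im,
      Complex.I_im]
    linarith

theorem S2 (hPHS : PHS_stmt) (hEV : EV_stmt) (hACG : ACG_stmt) (hA2P : A2P_stmt) (hPHE : PHE_stmt)
    (hG2M : G2M_stmt) : S2_stmt := by
  intro f A B m C W hacc hgood hC hW
  obtain ⟨hre, him⟩ := S2_re C W hC hW
  have hWC : (0 : ℝ) < W + 1 / C := by positivity
  have hI : (-I) * (-I) = (-1 : ℂ) := by
    have := Complex.I_mul_I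
    linear_combination this
  have e44' : (W : ℂ) - (-I) * (-I) / (C : ℂ) = ((W + 1 / C : ℝ) : ℂ) := by
    rw [hI]
    push_cast
    ring
  constructor
  · have h5 := H59_acc hACG A B m C 1 W 0 (-I) 0 0 (-I) (-I) hacc hC one_pos hW (by simp) (by simp)
      (by simp) (by simp) (by simp) (by simp)
    rw [Complex.ofReal_one] at h5
    set F := G5 A B C 1 W m 0 (-I) 0 0 (-I) (-I) with hF
    have h4 : AccS F {0, 1, 2, 4} := hPHE.2.2.2.2 F {0, 1, 2, 4} {0, 1, 2, 3, 4} (by decide) h5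
    obtain ⟨_, h3, hph3⟩ := H59_elim hPHS F {0, 1, 4} {0, 1, 2, 4} 2 (by decide) (by decide) h4 C rfl
    obtain ⟨_, h2, hph2⟩ := H59_elim hPHS (sch F 2) {0, 1} {0, 1, 4} 4 (by decide) (by decide) h3
      (W + 1 / C) e44'
    have e00 : sch (sch F 2) 4 0 0 = A := by
      change (A - 0 * 0 / (C : ℂ)) - (0 - 0 * (-I) / (C : ℂ)) * (0 - (-I) * 0 / (C : ℂ)) /
        ((W : ℂ) - (-I) * (-I) / (C : ℂ)) = _
      simp
    have e11 : sch (sch F 2) 4 1 1 = B + ((C : ℂ) + W + 2 * I) / ((C : ℂ) * W + 1) :=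
      S2_alg B C W hC hW
    have e01 : sch (sch F 2) 4 0 1 = m := by
      change (m - 0 * (-I) / (C : ℂ)) - (0 - 0 * (-I) / (C : ℂ)) * (-I - (-I) * (-I) / (C : ℂ)) /
        ((W : ℂ) - (-I) * (-I) / (C : ℂ)) = _
      simp
    have e10 : sch (sch F 2) 4 1 0 = m := by
      change (m - (-I) * 0 / (C : ℂ)) - (-I - (-I) * (-I) / (C : ℂ)) * (0 - (-I) * 0 / (C : ℂ)) /
        ((W : ℂ) - (-I) * (-I) / (C : ℂ)) = _
      simp
    rw [hph3, hph2, hEV.1 (sch (sch F 2) 4) 0 1 (by decide) (by rw [e01, e10]) h2, e00, e11, e01]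
    have := (hG2M f A B m 0 _ hacc hgood (by simp) (by simp) hre him).2 0 0 le_rfl le_rfl
    simpa using this
  · have h5 := H59_acc hACG A B m C W 1 (-I) 0 (-I) (-I) 0 0 hacc hC hW one_pos (by simp) (by simp)
      (by simp) (by simp) (by simp) (by simp)
    rw [Complex.ofReal_one] at h5
    set F := G5 A B C W 1 m (-I) 0 (-I) (-I) 0 0 with hF
    have h4 : AccS F {0, 1, 2, 3} := hPHE.2.2.2.2 F {0, 1, 2, 3} {0, 1, 2, 3, 4} (by decide) h5
    obtain ⟨_, h3, hph3⟩ := H59_elim hPHS F {0, 1, 3} {0, 1, 2, 3} 2 (by decide) (by decide) h4 C rfl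
    obtain ⟨_, h2, hph2⟩ := H59_elim hPHS (sch F 2) {0, 1} {0, 1, 3} 3 (by decide) (by decide) h3
      (W + 1 / C) e44'
    have e11 : sch (sch F 2) 3 1 1 = B := by
      change (B - 0 * 0 / (C : ℂ)) - (0 - 0 * (-I) / (C : ℂ)) * (0 - (-I) * 0 / (C : ℂ)) /
        ((W : ℂ) - (-I) * (-I) / (C : ℂ)) = _
      simp
    have e00 : sch (sch F 2) 3 0 0 = A + ((C : ℂ) + W + 2 * I) / ((C : ℂ) * W + 1) :=
      S2_alg A C W hC hW
    have e10 : sch (sch F 2) 3 1 0 = m := by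
      change (m - 0 * (-I) / (C : ℂ)) - (0 - 0 * (-I) / (C : ℂ)) * (-I - (-I) * (-I) / (C : ℂ)) /
        ((W : ℂ) - (-I) * (-I) / (C : ℂ)) = _
      simp
    have e01 : sch (sch F 2) 3 0 1 = m := by
      change (m - (-I) * 0 / (C : ℂ)) - (-I - (-I) * (-I) / (C : ℂ)) * (0 - (-I) * 0 / (C : ℂ)) /
        ((W : ℂ) - (-I) * (-I) / (C : ℂ)) = _
      simp
    rw [hph3, hph2, hEV.1 (sch (sch F 2) 3) 0 1 (by decide) (by rw [e01, e10]) h2, e00, e11, e01]
    have := (hG2M f A B m _ 0 hacc hgood hre him (by simp) (by simp)).2 0 0 le_rfl le_rfl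
    simpa using this

end Pool.Agent.MO
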