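import Pool.Agent.helper59.MO.Base

open Complex Finset

namespace Pool.Agent.MO

theorem S4 (hPHS : PHS_stmt) (hEV : EV_stmt) (hACG : ACG_stmt) (hA2P : A2P_stmt) (hPHE : PHE_stmt) :
    S4_stmt := by
  intro f A B m C U W hacc hgood hU hW
  have hUU : (U : ℂ) ≠ 0 := by exact_mod_cast hU.ne'
  have hWW : (W : ℂ) ≠ 0 := by exact_mod_cast hW.ne'
  have h5 := H59_acc hACG A B m 1 U W (-I) (-I) (-I) (-I) (-I) (-I) hacc one_pos hU hW (by simp)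
    (by simp) (by simp) (by simp) (by simp) (by simp)
  rw [Complex.ofReal_one] at h5
  have h4' : AccS (G5 A B 1 U W m (-I) (-I) (-I) (-I) (-I) (-I)) {0, 1, 3, 4} :=
    hPHE.2.2.2.2 _ {0, 1, 3, 4} {0, 1, 2, 3, 4} (by decide) h5
  set F := G5 A B C U W m (-I) (-I) (-I) (-I) (-I) (-I) with hF
  have h4 : AccS F {0, 1, 3, 4} := by
    refine (hPHE.2.2.1 _ F {0, 1, 3, 4} ?_).2.2 h4'
    intro i hi j hj
    simp only [Finset.mem_insert, Finset.mem_singleton] at hi hj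
    rcases hi with rfl | rfl | rfl | rfl <;> rcases hj with rfl | rfl | rfl | rfl <;> rfl
  obtain ⟨_, h3, hph3⟩ := H59_elim hPHS F {0, 1, 4} {0, 1, 3, 4} 3 (by decide) (by decide) h4 U rfl
  have e44 : sch F 3 4 4 = ((W : ℝ) : ℂ) := by
    change (W : ℂ) - 0 * 0 / (U : ℂ) = W
    simp
  obtain ⟨_, h2, hph2⟩ := H59_elim hPHS (sch F 3) {0, 1} {0, 1, 4} 4 (by decide) (by decide) h3 W e44
  have e00 : sch (sch F 3) 4 0 0 = A + ((1 / U : ℝ) : ℂ) := by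
    change (A - (-I) * (-I) / (U : ℂ)) - (0 - (-I) * 0 / (U : ℂ)) * (0 - 0 * (-I) / (U : ℂ)) /
      ((W : ℂ) - 0 * 0 / (U : ℂ)) = _
    push_cast
    simp
    ring
  have e11 : sch (sch F 3) 4 1 1 = B + ((1 / W : ℝ) : ℂ) := by
    change (B - 0 * 0 / (U : ℂ)) - (-I - 0 * 0 / (U : ℂ)) * (-I - 0 * 0 / (U : ℂ)) /
      ((W : ℂ) - 0 * 0 / (U : ℂ)) = _
    push_cast
    simp
    ring
  have e01 : sch (sch F 3) 4 0 1 = m := by
    change (m - (-I) * 0 / (U : ℂ)) - (0 - (-I) * 0 / (U : ℂ)) * (-I - 0 * 0 / (U : ℂ)) /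
      ((W : ℂ) - 0 * 0 / (U : ℂ)) = _
    simp
  have e10 : sch (sch F 3) 4 1 0 = m := by
    change (m - 0 * (-I) / (U : ℂ)) - (-I - 0 * 0 / (U : ℂ)) * (0 - 0 * (-I) / (U : ℂ)) /
      ((W : ℂ) - 0 * 0 / (U : ℂ)) = _
    simp
  rw [hph3, hph2, hEV.1 (sch (sch F 3) 4) 0 1 (by decide) (by rw [e01, e10]) h2, e00, e11, e01]
  exact hgood (1 / U) (1 / W) (by positivity) (by positivity)

end Pool.Agent.MO
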