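import Pool.Agent.helper34.MO.SpecB

open Complex Finset

namespace Pool.Agent.MO

/-- accretivity of the small matrices without a branch -/
theorem H59_acc (hACG : ACG_stmt) (A B m : ℂ) (C U W : ℝ) (ac bc au cu bw cw : ℂ) (h : Acc2 A B m)
    (hC : 0 < C) (hU : 0 < U) (hW : 0 < W) (h1 : ac.re = 0) (h2 : bc.re = 0) (h3 : au.re = 0)
    (h4 : cu.re = 0) (h5 : bw.re = 0) (h6 : cw.re = 0) :
    AccS (G5 A B C U W m ac bc au cu bw cw) {0, 1, 2, 3, 4} := by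
  have h0 : Psd2 0 0 0 := by simp [Psd2]
  have := hACG A B m 0 0 0 C U W ac bc au cu bw cw h h0 hC hU hW h1 h2 h3 h4 h5 h6
  simpa using this

theorem H59_elim (hPHS : PHS_stmt) (F : ℕ → ℕ → ℂ) (S T : Finset ℕ) (k : ℕ) (hk : k ∉ S)
    (hT : T = insert k S) (hacc : AccS F T) (r : ℝ) (hr : F k k = r) :
    0 < r ∧ AccS (sch F k) S ∧ phS F T = phS (sch F k) S := by
  subst hT
  obtain ⟨h1, h2, h3, _⟩ := hPHS F S k hk hacc
  have hr0 : 0 < r := by rw [hr] at h1; simpa using h1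
  refine ⟨hr0, h2, ?_⟩
  rw [h3, hr, Complex.arg_ofReal_of_nonneg hr0.le, zero_add]

end Pool.Agent.MO
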