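import Pool.Agent.helper59.MO.Base

open Complex Finset

namespace Pool.Agent.MO

theorem S1 (hPHS : PHS_stmt) (hEV : EV_stmt) (hACG : ACG_stmt) (hA2P : A2P_stmt) (hPHE : PHE_stmt) :
    S1_stmt := by
  intro f A B m C hacc hgood hC
  have hCC : (C : ℂ) ≠ 0 := by exact_mod_cast hC.ne'
  constructor
  · have h5 := H59_acc hACG A B m C 1 1 0 (-I) 0 0 0 0 hacc hC one_pos one_pos (by simp) (by simp)
      (by simp) (by simp) (by simp) (by simp)
    rw [Complex.ofReal_one] at h5
    set F := G5 A B C 1 1 m 0 (-I) 0 0 0 0 with hF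
    have h3 : AccS F {0, 1, 2} := hPHE.2.2.2.2 F {0, 1, 2} {0, 1, 2, 3, 4} (by decide) h5
    obtain ⟨_, h2, hph⟩ := H59_elim hPHS F {0, 1} {0, 1, 2} 2 (by decide) (by decide) h3 C rfl
    have e00 : sch F 2 0 0 = A := by
      change A - 0 * 0 / (C : ℂ) = A
      simp
    have e11 : sch F 2 1 1 = B + ((1 / C : ℝ) : ℂ) := by
      change B - (-I) * (-I) / (C : ℂ) = _
      push_cast
      field_simp
      ring_nf
      simp [add_comm]
    have e01 : sch F 2 0 1 = m := by
      change m - 0 * (-I) / (C : ℂ) = m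
      simp
    have e10 : sch F 2 1 0 = m := by
      change m - (-I) * 0 / (C : ℂ) = m
      simp
    rw [hph, hEV.1 (sch F 2) 0 1 (by decide) (by rw [e01, e10]) h2, e00, e11, e01]
    have := hgood 0 (1 / C) le_rfl (by positivity)
    simpa using this
  · have h5 := H59_acc hACG A B m C 1 1 (-I) 0 0 0 0 0 hacc hC one_pos one_pos (by simp) (by simp)
      (by simp) (by simp) (by simp) (by simp)
    rw [Complex.ofReal_one] at h5
    set F := G5 A B C 1 1 m (-I) 0 0 0 0 0 with hF
    have h3 : AccS F {0, 1, 2} := hPHE.2.2.2.2 F {0, 1, 2} {0, 1, 2, 3, 4} (by decide) h5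
    obtain ⟨_, h2, hph⟩ := H59_elim hPHS F {0, 1} {0, 1, 2} 2 (by decide) (by decide) h3 C rfl
    have e11 : sch F 2 1 1 = B := by
      change B - 0 * 0 / (C : ℂ) = B
      simp
    have e00 : sch F 2 0 0 = A + ((1 / C : ℝ) : ℂ) := by
      change A - (-I) * (-I) / (C : ℂ) = _
      push_cast
      field_simp
      ring_nf
      simp [add_comm]
    have e01 : sch F 2 0 1 = m := by
      change m - (-I) * 0 / (C : ℂ) = m
      simp
    have e10 : sch F 2 1 0 = m := by
      change m - 0 * (-I) / (C : ℂ) = m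
      simp
    rw [hph, hEV.1 (sch F 2) 0 1 (by decide) (by rw [e01, e10]) h2, e00, e11, e01]
    have := hgood (1 / C) 0 (by positivity) le_rfl
    simpa using this

end Pool.Agent.MO
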